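import Pool.Agent.N202.QD.SubE

/-!
# Quadratic relations decide the de Rham–Betti relations of all degrees

`V = H^j(X_s, ℚ)`, with a basis indexed by `ι`, `K ⊂ ℂ` is a field of algebraic numbers over which
`X_s` is defined, `P` is the period matrix, `B` is the fibre at `s` of the Zariski closure of the
graph of the multivalued period matrix of the family, and `𝔥` is the Lie algebra of the algebraic
monodromy group of the family.  We assume that the relations over `K` of degree at most two between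
the periods hold on `B`; here `V` is polarised or the de Rham–Betti structure `End V` over `K` is
semisimple; otherwise relations of degree at most `dim V` are needed (`Enough`).

* (1) If `K` contains all algebraic numbers, then `𝔥` stabilises all de Rham–Betti substructures over
  `K` of all the tensor powers of `V ⊕ V^∨` and kills all their de Rham–Betti classes (up to Tate
  twists).
* (2) The same conclusion holds for arbitrary `K` if `End V` is semisimple and the endomorphisms of
  the de Rham–Betti structure `V` over `ℚ̄` are defined over `K`.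
* (3) Let `𝔤` be a semisimple rational Lie algebra contained in `𝔥` which is a de Rham–Betti
  substructure of `End V` (for example a rational form of `𝔥`).  Then `𝔤` is the sum of two ideals `𝔞`
  and `𝔟`, where `𝔞` has the property in (1) and `𝔟` consists of endomorphisms of the de Rham–Betti
  structure `V` over `ℚ̄`.
-/

namespace Pool.Agent.Results.MP_5591bc_ag.BoundedDegreeDecides

open Pool.Agent.N202.CF (matL)
open Pool.Agent.N202.QD

/-- The hypothesis on the relations over `K` between the periods: they hold on `B` if their degree is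
at most `dim V`; or degree at most two and `V` is polarised or `End V` is semisimple. -/
def Enough {ι : Type} [Fintype ι] [DecidableEq ι] (K : IntermediateField ℚ ℂ) (P : Matrix ι ι ℂ)
    (B : Set (Matrix ι ι ℂ)) : Prop :=
  NoNewRelations K P B (Fintype.card ι) ∨
    (NoNewRelations K P B 2 ∧ (IsPolarised K P ∨ EndSemisimple K P))

theorem result (ι : Type) [Fintype ι] [DecidableEq ι] (K : IntermediateField ℚ ℂ)
    (hK : ∀ a ∈ K, IsAlgebraic ℚ a) (P : Matrix ι ι ℂ) (hP : P.det ≠ 0)
    (B : Set (Matrix ι ι ℂ)) (hB : P ∈ B) (𝔥 : Submodule ℂ (Matrix ι ι ℂ))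
    (h𝔥 : IsMonodromy B 𝔥) :
    (Enough K P B → (∀ a : ℂ, IsAlgebraic ℚ a → a ∈ K) → ∀ y ∈ 𝔥, Fixes K P y) ∧
    (NoNewRelations K P B 2 → EndSemisimple K P → EndOver K P → ∀ y ∈ 𝔥, Fixes K P y) ∧
    (Enough K P B → ∀ 𝔤 : Submodule ℚ (Matrix ι ι ℚ), IsSemisimple 𝔤 → (∀ x ∈ 𝔤, matL ℂ x ∈ 𝔥) →
      IsSubEnd K P 𝔤 →
        ∃ 𝔞 𝔟, IsIdeal 𝔞 𝔤 ∧ IsIdeal 𝔟 𝔤 ∧ 𝔞 ⊓ 𝔟 = ⊥ ∧ 𝔞 ⊔ 𝔟 = 𝔤 ∧
          (∀ x ∈ 𝔞, Fixes K P (matL ℂ x)) ∧
          ∀ x ∈ 𝔟, ∀ i j, IsAlgebraic ℚ ((P * matL ℂ x * P⁻¹) i j)) := by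
  have hP' : P * P⁻¹ = 1 := Matrix.mul_nonsing_inv P (isUnit_iff_ne_zero.2 hP)
  refine ⟨fun hE hK' y hy => ?_,
    fun hR hS hE y hy => fixes_of_le h𝔥 (mono_le2 h𝔥 hB hK hP' hR hE hS) hy,
    fun hR 𝔤 hg hgh hgs => split h𝔥 hB hK hP' hR hg hgh hgs⟩
  rcases hE with hR | ⟨hR, hpol | hS⟩
  · exact fixes_of_le h𝔥 (mono_le' h𝔥 hB hK hK' hP' (key_of_card hP' hR) dL'_bracket) hy
  · exact fixes_of_le h𝔥 (mono_le' h𝔥 hB hK hK' hP' (key_of_pol hP' hpol hR) dL'_bracket) hy
  · exact fixes_of_le h𝔥 (mono_le2 h𝔥 hB hK hP' hR (fun x hx i j => hK' _ (hx i j)) hS) hy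

end Pool.Agent.Results.MP_5591bc_ag.BoundedDegreeDecides
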