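import Pool.Agent.N207.SC.Symp
import Pool.Agent.N227.CF.Low

/-!
# Periods of all conjugates of almost all hyperelliptic curves over a number field

Let `K` be a number field. Points `a` with coordinates in `K` give polynomials `F_j = ∑ a_(j,k) x ^ k`, `k ≤ n_j + 1`, over
`K` and the hyperelliptic curves `y² = F_j(x)` over `K`, `1 ≤ j ≤ N`, of genus `g_j = ⌊n_j / 2⌋`: all hyperelliptic curves
of these genera over `K` (for even `n_j` those with a rational Weierstrass point at infinity). The restriction of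
scalars from `K` to `ℚ` of the product of their Jacobians is isogenous over `ℂ` to the product of the Jacobians of the
`N [K : ℚ]` conjugate curves `y² = φ(F_j)(x)`, `φ` running through the embeddings of `K`. Consider the family of all
these products, over the product of the conjugates of the space of the coefficients. The set `B` of the problem is here
the set of all period matrices allowed by the polarisations: its fibre is the product over `φ` and `j` of the torsors
under `GSp_(2 g_j)`, with one common multiplier `2 π i`.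

We show that for 100 percent of the points `a` with given denominators (in compact parts of the domain) the following
is true: every relation of growing degree and height between the periods of all conjugates of the curves `y² = F_j(x)`,
with coefficients in number fields of growing degree and relative to arbitrary complex constants (for instance the
powers of `2 π i`), holds on the whole product of the torsors. So different conjugates of a curve do not interact.
-/

set_option autoImplicit false

open Polynomial NumberField Filter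

namespace Pool.Agent.Results.MP_5591bc_ag.ConjugateHyperelliptic

variable {N : ℕ}

/-- twice the genus of the curves `y² = F(x)`, `F` of degree `m + 1` -/
abbrev dim (m : ℕ) : ℕ := 2 * (m / 2)

/-- the indices of the coefficients of the polynomials `F_j`, of degrees at most `n_j + 1` -/
abbrev Coef (n : Fin N → ℕ) : Type := Σ j, Fin (n j + 2)

/-- the polynomials `F_j = ∑ a_(j,k) x ^ k`, `k ≤ n_j + 1` -/
noncomputable def pol (n : Fin N → ℕ) (a : Coef n → ℂ) (j : Fin N) : ℂ[X] :=
  ∑ k : Fin (n j + 2), C (a ⟨j, k⟩) * X ^ (k : ℕ)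

/-- `F` has degree `m + 1` and its roots are `e`, in increasing order with respect to `re + im` (so they are
distinct) -/
def Branch {m : ℕ} (F : ℂ[X]) (e : Fin (m + 1) → ℂ) : Prop :=
  F.coeff (m + 1) ≠ 0 ∧ F = C (F.coeff (m + 1)) * ∏ r, (X - C (e r)) ∧
    ∀ r s, r < s → (e r).re + (e r).im < (e s).re + (e s).im

/-- the domain: the `F_j` have degree `n_j + 1` and distinct roots, with distinct `re + im`, and their leading
coefficients are not `≤ 0` multiples of `1 + i` -/
def Dom (n : Fin N → ℕ) : Set (Coef n → ℂ) :=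
  {a | ∀ j, a ⟨j, Fin.last (n j + 1)⟩ / (1 + Complex.I) ∈ Complex.slitPlane ∧ ∃ e, Branch (m := n j) (pol n a j) e}

/-- the points of the closed ball of radius `k` whose open ball of radius `1 / k` is contained in the domain (maximum
norm) -/
def Inner (n : Fin N → ℕ) (k : ℕ) : Set (Coef n → ℂ) := {a | ‖a‖ ≤ k ∧ Metric.ball a (k : ℝ)⁻¹ ⊆ Dom n}

/-- a branch of the square root of `c ∏ (x - e i)`, for `x` on the segment from `e l` to `e (l + 1)`: all
arguments of the principal square roots have real part `≥ 0`, up to the first two (constant) factors -/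
noncomputable def root {m : ℕ} (c : ℂ) (e : Fin (m + 1) → ℂ) (l : Fin m) (x : ℂ) : ℂ :=
  ((1 + Complex.I) ^ (1 / 2 : ℂ)) ^ (m + 2) * (c / (1 + Complex.I)) ^ (1 / 2 : ℂ) *
    Complex.I ^ (m % 2 + (l : ℕ) % 2) *
    ∏ i : Fin (m + 1), ((if (i : ℕ) ≤ l then x - e i else e i - x) / (1 + Complex.I)) ^ (1 / 2 : ℂ)

/-- the point of the segment from `p` to `q` -/
noncomputable def seg (p q : ℂ) (t : ℝ) : ℂ := (1 - t) * p + t * q

/-- the period `∮ x ^ j dx / y`, `y² = c ∏ (x - e i)`, over the loop around the segment from `e l` to `e (l + 1)`, that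
is twice the integral over the segment -/
noncomputable def period {m : ℕ} (c : ℂ) (e : Fin (m + 1) → ℂ) (l j : Fin m) : ℂ :=
  2 * ∫ t in (0 : ℝ)..1, (seg (e l.castSucc) (e l.succ) t) ^ (j : ℕ) /
    root c e l (seg (e l.castSucc) (e l.succ) t) * (e l.succ - e l.castSucc)

/-- the `i`-th form is `∑ form m F i k * x ^ k dx / y`: for `i < g = ⌊m / 2⌋` it is `x ^ i dx / y`, and for `i = g + i'`
it is the form of the second kind `∑_(i'<k) (i' - k)/2 c_(i'+k+2) x ^ k dx / y`, where `F = ∑ c_k x ^ k` -/
noncomputable def form (m : ℕ) (F : ℂ[X]) (i k : ℕ) : ℂ :=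
  if i < m / 2 then (if k = i then 1 else 0) else
    (if i - m / 2 < k then (((i - m / 2 : ℕ) : ℂ) - (k : ℂ)) / 2 * F.coeff (i - m / 2 + k + 2) else 0)

/-- the matrix of the periods of the `2 g` forms over the first `2 g` loops, `g = ⌊m / 2⌋` -/
noncomputable def periods {m : ℕ} (F : ℂ[X]) (e : Fin (m + 1) → ℂ) : Matrix (Fin (dim m)) (Fin (dim m)) ℂ :=
  Matrix.of fun l i => ∑ k : Fin m,
    period (F.coeff (m + 1)) e (Fin.castLE (by unfold dim; omega) l) k * form m F (i : ℕ) (k : ℕ)

/-- the polarisation in terms of the forms: the standard symplectic matrix -/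
def polDR (m : ℕ) : Matrix (Fin (dim m)) (Fin (dim m)) ℚ :=
  Matrix.of fun r s => if (s : ℕ) = r + m / 2 then 1 else if (r : ℕ) = s + m / 2 then -1 else 0

/-- the polarisation in terms of the loops: `2 (-1) ^ r` at `(r, s)`, `|r - s| = 1` -/
def polB (m : ℕ) : Matrix (Fin (dim m)) (Fin (dim m)) ℚ :=
  Matrix.of fun r s => if (r : ℕ) = s + 1 ∨ (s : ℕ) = r + 1 then 2 * (-1) ^ (r : ℕ) else 0

/-- the complex points of the torsor: matrices `X_j` and `lam ≠ 0` with `X_j polDR X_jᵀ = lam polB` (a torsor under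
`{(g_1, …, g_N) : g_j ∈ GSp_(2g_j), equal multipliers}`) -/
def Torsor (n : Fin N → ℕ) : Set ((∀ j, Matrix (Fin (dim (n j))) (Fin (dim (n j))) ℂ) × ℂ) :=
  {x | x.2 ≠ 0 ∧ ∀ j, x.1 j * (polDR (n j)).map (algebraMap ℚ ℂ) * (x.1 j).transpose =
    x.2 • (polB (n j)).map (algebraMap ℚ ℂ)}

/-- the indices of the entries of the matrices -/
abbrev Ind (n : Fin N → ℕ) : Type := Σ j, Fin (dim (n j)) × Fin (dim (n j))

/-- the entries of the matrices `X_j` -/
def entries {n : Fin N → ℕ} (X : ∀ j, Matrix (Fin (dim (n j))) (Fin (dim (n j))) ℂ) : Ind n → ℂ :=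
  fun q => X q.1 q.2.1 q.2.2

/-- the points with integral coordinates in `K` all of whose conjugates are at most `T` in absolute value -/
def Points (K X : Type) [Field K] [NumberField K] (T : ℝ) : Set (X → 𝓞 K) := {a | ∀ j, house (a j : K) ≤ T}

/-- every polynomial `R` in the entries of the matrices `X φ j`, `φ` running through the embeddings of `K`, of partial
degrees at most `k`, whose coefficients are combinations `∑ ξ i * c i` with integers `c i` of `L` all of whose conjugates
are at most `H`, with `R(X) = 0`, vanishes on the product of the fibres over `2 π i` of the torsors -/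
def Generic (n : Fin N → ℕ) (K : Type) [Field K] (L : Type) [Field L] [NumberField L] (io : L →+* ℂ) (k : ℕ)
    (ξ : Fin k → ℂ) (H : ℝ) (X : (K →+* ℂ) → ∀ j, Matrix (Fin (dim (n j))) (Fin (dim (n j))) ℂ) : Prop :=
  ∀ R : MvPolynomial ((K →+* ℂ) × Ind n) ℂ, (∀ y, R.degreeOf y ≤ k) →
    (∀ m, ∃ c : Fin k → 𝓞 L, (∀ i (ψ : L →+* ℂ), ‖ψ (c i : L)‖ ≤ H) ∧ R.coeff m = ∑ i, ξ i * io (c i : L)) →
    MvPolynomial.eval (fun q => entries (X q.1) q.2) R = 0 →
    ∀ Y : (K →+* ℂ) → ∀ j, Matrix (Fin (dim (n j))) (Fin (dim (n j))) ℂ,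
      (∀ φ, (Y φ, (2 * Real.pi * Complex.I : ℂ)) ∈ Torsor n) →
        MvPolynomial.eval (fun q => entries (Y q.1) q.2) R = 0

/-- the exceptional tuples of curves: the points `a` over `K` with all conjugates in the `k`-th compact part of the
domain, such that it is not true that the periods of all conjugates of the curves are on the torsors and generic with
respect to the relations of degree `≤ k` and height `≤ T ^ k` -/
def Exceptional (n : Fin N → ℕ) (K : Type) [Field K] (L : Type) [Field L] [NumberField L] (io : L →+* ℂ) (k : ℕ)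
    (ξ : Fin k → ℂ) (T : ℝ) : Set (Coef n → K) :=
  {a | (∀ φ : K →+* ℂ, (fun q => φ (a q)) ∈ Inner n k) ∧
    ¬ ∃ e : ∀ (_ : K →+* ℂ) (j : Fin N), Fin (n j + 1) → ℂ,
      (∀ φ j, Branch (pol n (fun q => φ (a q)) j) (e φ j)) ∧
      (∀ φ, ((fun j => periods (pol n (fun q => φ (a q)) j) (e φ j)), (2 * Real.pi * Complex.I : ℂ)) ∈ Torsor n) ∧
      Generic n K L io k ξ (T ^ k) (fun φ j => periods (pol n (fun q => φ (a q)) j) (e φ j))}

/-- **The periods of all conjugates of almost all hyperelliptic curves over `K`.** Let `K` be a number field, `N ≥ 1` and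
`n_1, …, n_N` natural numbers.

There are `ω → ∞` and `C` such that for all large `T`, all number fields `L` of degree at most `ω T`, with an embedding
in the complex numbers such that `L` contains all conjugates of `K`, all complex numbers `ξ i`, `i < ω T`, and all
integral points `b` of `K` of house at most `T` with nonzero coordinates, the proportion of the integral points `x` of
`K` of house at most `T` such that `x / b` is exceptional is at most `C T ^ (-1 + 2 / ω T)`. So for 100 percent of the
tuples of curves `y² = F_j(x)` over `K` all relations of growing degree and height between the periods of all their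
conjugates hold on the product of the torsors. -/
theorem result (hN : 1 ≤ N) (n : Fin N → ℕ) (K : Type) [Field K] [NumberField K] :
    ∃ (ω : ℝ → ℕ) (C T₀ : ℝ), Tendsto ω atTop atTop ∧ Monotone ω ∧ ∀ T, T₀ ≤ T → 0 < ω T ∧
      (Points K (Coef n) T).Finite ∧ (Points K (Coef n) T).Nonempty ∧
      ∀ (L : Type) [Field L] [NumberField L], Module.finrank ℚ L ≤ ω T → ∀ io : L →+* ℂ,
        (∀ φ : K →+* ℂ, ∃ φ' : K →+* L, io.comp φ' = φ) →
        ∀ (ξ : Fin (ω T) → ℂ), ∀ b ∈ Points K (Coef n) T, (∀ q, b q ≠ 0) →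
          ({x ∈ Points K (Coef n) T | (fun q => (x q : K) / (b q : K)) ∈
              Exceptional n K L io (ω T) ξ T}.ncard : ℝ) ≤
            C * T ^ (-1 + 2 / (ω T : ℝ)) * (Points K (Coef n) T).ncard := by
  classical
  have : Nonempty (Fin N) := ⟨⟨0, hN⟩⟩
  have : Nonempty (Coef n) := ⟨⟨⟨0, hN⟩, 0⟩⟩
  have hpol : ∀ (a : Coef n → ℂ) (j : Fin N), pol n a j =
      Pool.Agent.N121.AH.fp (Pool.Agent.Y890.MV.pj a j) := fun a j => rfl
  have hlead : ∀ (a : Coef n → ℂ) (j : Fin N), (pol n a j).coeff (n j + 1) = a ⟨j, Fin.last (n j + 1)⟩ := by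
    intro a j
    rw [hpol, Pool.Agent.N121.AH.fp_coeff, dif_pos (by omega)]
    rfl
  have hbr : ∀ (a : Coef n → ℂ) (j : Fin N) (e : Fin (n j + 1) → ℂ), Branch (pol n a j) e ↔
      a ⟨j, Fin.last (n j + 1)⟩ ≠ 0 ∧ Pool.Agent.N121.AH.fp (Pool.Agent.Y890.MV.pj a j) =
        C (a ⟨j, Fin.last (n j + 1)⟩) * Pool.Agent.N121.OH.rp e ∧
        ∀ r s, r < s → (e r).re + (e r).im < (e s).re + (e s).im := by
    intro a j e
    unfold Branch
    rw [hlead]
    rfl
  have hne : ∀ z : ℂ, z / (1 + Complex.I) ∈ Complex.slitPlane → z ≠ 0 := by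
    intro z hz h0
    rw [h0, zero_div] at hz
    exact Complex.slitPlane_ne_zero hz rfl
  have hdom : Dom n = Pool.Agent.N121.KH.Dm n := by
    ext a
    unfold Dom Pool.Agent.N121.KH.Dm
    simp only [Set.mem_ofPred_eq]
    refine forall_congr' fun j => and_congr_right fun hj => exists_congr fun e => ?_
    rw [hbr]
    constructor
    · exact fun h => h.2
    · exact fun h => ⟨hne _ hj, h⟩
  have hroot : ∀ j (c : ℂ) (e : Fin (n j + 1) → ℂ) (l : Fin (n j)) (x : ℂ), root c e l x =
      Pool.Agent.N121.AH.rtG c e l x := by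
    intro j c e l x
    unfold root Pool.Agent.N121.AH.rtG Pool.Agent.N121.AH.scf Pool.Agent.N121.OH.rtF Pool.Agent.N121.AH.w0
      Pool.Agent.N121.AH.u0
    rw [pow_add Complex.I]
    ring
  have hper : ∀ (a : Coef n → ℂ) (e : ∀ j, Fin (n j + 1) → ℂ), (fun j => periods (pol n a j) (e j)) =
      Pool.Agent.N121.AH.PM n a e := by
    intro a e
    funext j
    ext l i
    unfold periods Pool.Agent.N121.AH.PM Pool.Agent.N121.AH.PF
    rw [Matrix.of_apply, Matrix.mul_apply]
    refine Finset.sum_congr rfl fun k _ => ?_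
    rw [Matrix.of_apply]
    congr 1
    unfold period Pool.Agent.N121.AH.perG
    simp only [hroot]
    rfl
  have htor : Torsor n = Pool.Agent.N121.AH.TorG n := by
    have hq : ∀ j, (polDR (n j)).map (algebraMap ℚ ℂ) = Pool.Agent.N121.AH.q0 ℂ (n j) := by
      intro j
      ext r s
      rw [Matrix.map_apply]
      unfold polDR Pool.Agent.N121.AH.q0
      rw [Matrix.of_apply, Matrix.of_apply]
      split_ifs <;> simp
    ext x
    unfold Torsor Pool.Agent.N121.AH.TorG
    simp only [Set.mem_ofPred_eq, hq]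
    rfl
  -- the torsor of the family
  have hTor : ∀ (x : Coef n → ℂ) (Y : ∀ j, Matrix (Fin (dim (n j))) (Fin (dim (n j))) ℂ),
      (Y, (2 * Real.pi * Complex.I : ℂ)) ∈ Torsor n → entries Y ∈ (Pool.Agent.N121.AH.ahF n).Tor x := by
    intro x Y hY
    have h1 : (Y, (2 * Real.pi * Complex.I : ℂ)) ∈ (Pool.Agent.N121.AH.ahF n).torsor x := by
      rw [Pool.Agent.N121.KH.torsor_eq, ← htor]
      exact hY
    exact h1.2
  obtain ⟨c, C₁, hc, hC₁, hlow⟩ := N227.CF.low K (Coef n)
  obtain ⟨ω, C, T₀, hC, h1, h2, h3⟩ := N207.SC.symp (K := K) (fun _ => Pool.Agent.N121.AH.ahF n)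
  refine ⟨ω, C / c, max T₀ 1, h1, h2, fun T hT => ⟨(h3 T ((le_max_left _ _).trans hT)).1, ?_, ?_, ?_⟩⟩
  · exact (hlow T ((le_max_right _ _).trans hT)).1
  · refine ⟨0, fun j => ?_⟩
    have h5 : ((0 : Coef n → 𝓞 K) j : K) = 0 := by simp
    have h6 : house (0 : K) = 0 := by simp [house]
    rw [h5, h6]
    exact zero_le_one.trans ((le_max_right _ _).trans hT)
  · intro L _ _ hL io hemb ξ b hb hb0
    have hT1 : 1 ≤ T := (le_max_right _ _).trans hT
    have hTp : 0 < T := by linarith
    have hω : 0 < ω T := (h3 T ((le_max_left _ _).trans hT)).1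
    obtain ⟨h3', h4⟩ := (h3 T ((le_max_left _ _).trans hT)).2 L hL io hemb ξ b (fun j => ⟨hb0 j, hb j⟩)
    obtain ⟨-, h5, -⟩ := hlow T hT1
    have hsub : {x ∈ Points K (Coef n) T | (fun q => (x q : K) / (b q : K)) ∈ Exceptional n K L io (ω T) ξ T} ⊆
        {a : Coef n → 𝓞 K | (∀ j, house (a j : K) ≤ T) ∧ (fun j => (a j : K) / (b j : K)) ∈
          N207.SC.ExcV (fun _ => (Pool.Agent.N121.AH.ahF n).U) (fun _ => (Pool.Agent.N121.AH.ahF n).f)
            (fun _ => (Pool.Agent.N121.AH.ahF n).Tor) L io (ω T) ξ T} := by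
      rintro x ⟨hx, hx1, hx2⟩
      have hUU : ∀ φ : K →+* ℂ, (fun q => φ ((x q : K) / (b q : K))) ∈ Pool.Agent.N121.AH.UU n := by
        intro φ
        rw [← Pool.Agent.N121.KH.Dm_eq, ← hdom]
        exact Y890.MV.innerM_sub (Dom n) hω (hx1 φ)
      have hin : ∀ φ : K →+* ℂ, (fun q => φ ((x q : K) / (b q : K))) ∈
          Y890.MV.InnerM (Pool.Agent.N121.AH.ahF n).U (ω T) := by
        intro φ
        have h6 : (Pool.Agent.N121.AH.ahF n).U = Dom n := by
          rw [hdom, Pool.Agent.N121.KH.Dm_eq]
          rfl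
        rw [h6]
        exact hx1 φ
      let e : ∀ (_ : K →+* ℂ) (j : Fin N), Fin (n j + 1) → ℂ := fun φ j =>
        Pool.Agent.N121.AH.er (Pool.Agent.Y890.MV.pj (fun q => φ ((x q : K) / (b q : K))) j)
      have he : ∀ φ j, Branch (pol n (fun q => φ ((x q : K) / (b q : K))) j) (e φ j) := by
        intro φ j
        rw [hbr]
        refine ⟨hne _ (hUU φ j).1, Pool.Agent.N121.AH.fp_er (hUU φ j), Pool.Agent.N121.AH.er_order (hUU φ j)⟩
      have hP : ∀ φ : K →+* ℂ, (fun j => periods (pol n (fun q => φ ((x q : K) / (b q : K))) j) (e φ j)) =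
          fun j => Pool.Agent.N121.AH.PA (Pool.Agent.Y890.MV.pj (fun q => φ ((x q : K) / (b q : K))) j) := by
        intro φ
        rw [hper]
        funext j
        exact Pool.Agent.N121.AH.PF_eq (hUU φ j)
      have hPt : ∀ φ : K →+* ℂ, ((fun j => periods (pol n (fun q => φ ((x q : K) / (b q : K))) j) (e φ j)),
          (2 * Real.pi * Complex.I : ℂ)) ∈ Torsor n := by
        intro φ
        rw [hP, htor]
        exact ⟨Y890.SM.tpi_ne, fun i => Pool.Agent.N121.AH.PA_riemann (hUU φ i)⟩
      have hgen : ¬ Generic n K L io (ω T) ξ (T ^ (ω T))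
          (fun φ j => periods (pol n (fun q => φ ((x q : K) / (b q : K))) j) (e φ j)) := fun hg =>
        hx2 ⟨e, he, hPt, hg⟩
      unfold Generic at hgen
      push Not at hgen
      obtain ⟨R, hR1, hR2, hR3, Y, hY, hR4⟩ := hgen
      refine ⟨hx, hin, R, hR1, fun m => ?_, ?_, fun φ => entries (Y φ), fun φ => hTor _ _ (hY φ), hR4⟩
      · obtain ⟨c, hc1, hc2⟩ := hR2 m
        exact ⟨c, fun i φ => by rw [Real.rpow_natCast]; exact hc1 i φ, hc2⟩
      · rw [← hR3]
        congr 1
        congr 1
        funext q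
        have h6 := congrFun (hP q.1) q.2.1
        show Pool.Agent.N121.AH.PA (Pool.Agent.Y890.MV.pj (fun j => q.1 ((x j : K) / (b j : K))) q.2.1) q.2.2.1
          q.2.2.2 = entries (fun j => periods (pol n (fun q' => q.1 ((x q' : K) / (b q' : K))) j) (e q.1 j)) q.2
        exact (congrFun (congrFun h6 q.2.2.1) q.2.2.2).symm
    have h6 : ({x ∈ Points K (Coef n) T | (fun q => (x q : K) / (b q : K)) ∈
          Exceptional n K L io (ω T) ξ T}.ncard : ℝ) ≤
        C * T ^ ((Module.finrank ℚ K * Fintype.card (Coef n) : ℝ) - 1 + 2 * ((ω T : ℝ)⁻¹)) :=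
      le_trans (by exact_mod_cast Set.ncard_le_ncard hsub h3') h4
    refine h6.trans ?_
    have h7 : (T : ℝ) ^ ((Module.finrank ℚ K * Fintype.card (Coef n) : ℝ) - 1 + 2 * ((ω T : ℝ)⁻¹)) =
        T ^ (-1 + 2 / (ω T : ℝ)) * T ^ (Module.finrank ℚ K * Fintype.card (Coef n)) := by
      rw [← Real.rpow_natCast T (Module.finrank ℚ K * Fintype.card (Coef n)), ← Real.rpow_add hTp]
      congr 1
      push_cast
      ring
    rw [h7]
    have h8 : T ^ (Module.finrank ℚ K * Fintype.card (Coef n)) ≤ ((Points K (Coef n) T).ncard : ℝ) / c := by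
      rw [le_div_iff₀ hc, mul_comm]
      exact h5
    calc C * (T ^ (-1 + 2 / (ω T : ℝ)) * T ^ (Module.finrank ℚ K * Fintype.card (Coef n))) ≤
          C * (T ^ (-1 + 2 / (ω T : ℝ)) * (((Points K (Coef n) T).ncard : ℝ) / c)) :=
          mul_le_mul_of_nonneg_left (mul_le_mul_of_nonneg_left h8 (by positivity)) hC
      _ = _ := by ring

end Pool.Agent.Results.MP_5591bc_ag.ConjugateHyperelliptic
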