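import Pool.Agent.N733.TG.M
import Pool.Agent.Results.MP_5591bc_ag.CyclicCoverProducts

/-!
# Periods of products of cyclic covers over tuples of values of multiplicative functions

Let `C⁽ˡ⁾_z : y ^ N = (x - z) ^ e₀ ∏_j (x - a_j) ^ (e_j)`, `l = 1, …, p`, be families of cyclic covers of the line with
algebraic branch points (different or equal), as in the starting theorem `CyclicCoverProducts` of this problem. The starting
theorem concerns the fibres over almost all points `(1 / n_1, …, 1 / n_p)`, with arbitrary integers `n_l`.

Let `f_1, …, f_p` be positive multiplicative functions of at most polynomial growth such that `f_l q ≤ M q` for the large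
primes `q`, with different values at different large primes; for example Euler's function or the sum of the divisors. We
prove: for every number field `K`, all degrees `δ` and every `U`, for all but `N ^ p / (log N) ^ U` of the `p`-tuples
`(m_1, …, m_p)` in `[1, N] ^ p` every relation of degree at most `δ` over `K` between the periods of all the curves
`C⁽ˡ⁾_{1 / f_l(m_l)}` is the value at `(1 / f_1(m_1), …, 1 / f_p(m_p))` of a relation over `K[z_1, …, z_p]`, of degree at
most `δ`, which holds identically on the graph of the period map.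

The tuples of values of such functions are a set of density zero and they are in general taken with very large
multiplicities (the values of Euler's function at most numbers have more than `(log N) ^ B` preimages, for every `B`), so
the theorem does not follow from the number of the exceptional fibres. The proof uses the number `O(T ^ (p - c))` of the
exceptional tuples and the tool `Pool.Agent.N733.TG` (helper733): tuples of values of such functions avoid, for almost all
arguments, every set with a power saving.
-/

set_option autoImplicit false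

namespace Pool.Agent.Results.MP_5591bc_ag.MultiplicativeValues

open Pool.Agent.N733.TG (LM lm_totient lm_sigma keep_tuples2)
open Pool.Agent.Results.MP_5591bc_ag.CyclicCoverProducts (Family periods DegreeStatement exceptions)

/-- **Periods over tuples of values of multiplicative functions.** Let `Γ_1, …, Γ_p`, `p ≥ 1`, be families of cyclic covers,
`K` a number field and `δ` a degree. There is a polydisc of radius `r > 0` such that for all multiplicative `f_1, …, f_p`
with the property `LM` and every `U`, for all large `N`, for all but at most `N ^ p / (log N) ^ U` of the tuples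
`m ∈ [1, N] ^ p` the point `s = (1 / f_1(m_1), …, 1 / f_p(m_p))` is in the polydisc and the degree `δ` statement over `K`
is true at `s` for the periods of the product of the fibres of the families over the coordinates of `s`. Euler's function
and the sum of the divisors are examples of functions with `LM`. -/
theorem result :
    (∀ (p : ℕ), 1 ≤ p → ∀ (Γ : Fin p → Family) (K : Type) [Field K] [NumberField K] [Algebra K ℂ] (δ : ℕ),
      ∃ r : ℝ, 0 < r ∧ (∀ l, r ≤ (Γ l).ρ) ∧
        ∀ f : Fin p → ℕ → ℕ, (∀ l, LM (f l)) → ∀ U : ℕ, ∃ N₀ : ℕ, ∀ N : ℕ, N₀ ≤ N →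
          ({m : Fin p → ℕ | (∀ l, 1 ≤ m l ∧ m l ≤ N) ∧
            ¬ ((∀ l, 1 / (f l (m l) : ℝ) < r) ∧
              DegreeStatement K (periods Γ) r δ fun l => 1 / (f l (m l) : K))}.ncard : ℝ) ≤
            (N : ℝ) ^ p / Real.log N ^ U) ∧
    (LM Nat.totient ∧ LM (fun m => ∑ d ∈ m.divisors, d)) := by
  refine ⟨fun p hp Γ K _ _ _ δ => ?_, lm_totient, lm_sigma⟩
  obtain ⟨r, hr, hrρ, c, C, hc, hC⟩ := CyclicCoverProducts.result Γ K δ
  refine ⟨r, hr, hrρ, fun f hf U => ?_⟩
  obtain ⟨N₀, hN₀⟩ := keep_tuples2 hp hf hc U C
  refine ⟨N₀, fun N hN => ?_⟩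
  have h1 := hN₀ N hN {w : Fin p → ℕ | ¬ ((∀ l, 1 / (w l : ℝ) < r) ∧
      DegreeStatement K (periods Γ) r δ fun l => 1 / (w l : K))} (fun X hX => by
    refine le_trans (le_of_eq ?_) (hC X hX)
    rfl)
  refine le_trans ?_ h1
  have hfin : {m : Fin p → ℕ | (∀ i, 1 ≤ m i ∧ m i ≤ N) ∧ ¬ ((∀ i, 2 ≤ f i (m i)) ∧
      (fun i => f i (m i)) ∉ {w : Fin p → ℕ | ¬ ((∀ l, 1 / (w l : ℝ) < r) ∧
      DegreeStatement K (periods Γ) r δ fun l => 1 / (w l : K))})}.Finite := by
    apply (Fintype.piFinset fun _ : Fin p => Finset.Icc 1 N).finite_toSet.subset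
    intro m hm
    rw [Finset.mem_coe, Fintype.mem_piFinset]
    exact fun i => Finset.mem_Icc.2 (hm.1 i)
  have h2 : {m : Fin p → ℕ | (∀ l, 1 ≤ m l ∧ m l ≤ N) ∧
      ¬ ((∀ l, 1 / (f l (m l) : ℝ) < r) ∧ DegreeStatement K (periods Γ) r δ fun l => 1 / (f l (m l) : K))} ⊆
      {m : Fin p → ℕ | (∀ i, 1 ≤ m i ∧ m i ≤ N) ∧ ¬ ((∀ i, 2 ≤ f i (m i)) ∧
      (fun i => f i (m i)) ∉ {w : Fin p → ℕ | ¬ ((∀ l, 1 / (w l : ℝ) < r) ∧
      DegreeStatement K (periods Γ) r δ fun l => 1 / (w l : K))})} := by
    rintro m ⟨h3, h4⟩
    refine ⟨h3, fun h5 => ?_⟩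
    apply h5.2
    exact h4
  exact_mod_cast Set.ncard_le_ncard h2 hfin

end Pool.Agent.Results.MP_5591bc_ag.MultiplicativeValues
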