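import Pool.Agent.N156.HG.Main

/-!
Grothendieck's period conjecture in bounded degree and height for the motives of the curves
`C M λ : y ^ M = x (1 - x) ^ (M - 1) (1 - λ x)`, all exponents `M` of a finite set and several `λ` at once. For a rational
`μ = k / M` in `(0, 1)` the differential `(1 - x) ^ (k - 1) dx / y ^ k` of `C M λ` is
`x ^ (- μ) (1 - x) ^ (μ - 1) (1 - λ x) ^ (- μ) dx`, and its periods are `π / sin (π μ)` times the hypergeometric functions
`F(μ, 1 - μ; 1; λ)` and `F(μ, 1 - μ; 1; 1 - λ)` (`PH`); `μ` and `1 - μ` give the same functions, which is why all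
`μ` in `(0, 1 / 2]` are considered. The parts of the Jacobians of the `C M λ` with these periods are Legendre's curve for
`M = 2` and abelian varieties with real multiplication by the maximal real subfield of `ℚ(ζ_M)` in general.
All the `μ` are considered at the same point `λ`: that the joint monodromy is Zariski dense in the product of
the groups `SL 2` is proved in `Pool.Agent.N156.HG.Grp` (`sp_tuple`), from the fact that the local monodromies at `0` and
`1` consist of transvections whose coefficients `sin (π μ) / π` are distinct; its consequence for the relations over `ℂ(λ)` is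
`Pool.Agent.N156.HG.relH`.
-/

namespace Pool.Agent.Results.MP_5591bc_ag.RealMultiplication

open Filter MeasureTheory Pool.Agent Pool.Agent.Y890.MV Pool.Agent.Y890.SM Pool.Agent.N156.HG

/-- Let `A` be a finite set of rational numbers in `(0, 1 / 2]`, and `UU N` the set of the `(x 0, …, x N)`, complex
numbers outside `(-∞, 0]` and `[1, ∞)`. The matrices `PH μ z`, `μ ∈ A`, are analytic, the second columns are the
derivatives of the first ones, and for real `z` in `(0, 1)` the entries of the first column are the integrals of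
`|x| ^ (- μ) (1 - x) ^ (μ - 1) (1 - z x) ^ (- μ) dx` over `(0, 1)` and over `(-∞, 0)`. The matrices `PH μ (x i)`, for all
`μ ∈ A` and all `i`, are with `2 π i` a point of the torsor `torH A x`, the `(Y, ν)`, `ν ≠ 0`, with
`- 2 i sin (π μ) x i (1 - x i) det (Y (i, μ)) = ν` for all `i` and `μ` (the relations of Legendre and Elliott).
There is `ω → ∞` such that for all large `T`, all number fields `K` of degree at most `ω T`, embedded
in `ℂ`, and all complex numbers `ξ a`, `a < ω T`: the points of `UU N` with coordinates in `K` of height at most `T`, of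
norm at most `ω T` and at distance at least `1 / ω T` from the complement of `UU N`, at which some relation of degree at
most `ω T` (in each entry), with coefficients in the integers of `K` of size at most `T ^ ω T`, between the entries of
all the `PH μ (x i)` and the powers of `2 π i` (`a`-th power, `a < ω T`) does not hold on the torsor, or between the entries
and the `ξ a` does not hold at the `(Y, 2 π i)` in the torsor (`ExcH`), lie on at most `T ^ (1 / ω T)` hypersurfaces of
degree at most `T ^ (1 / ω T)`; and there are at most `T ^ (1 / ω T) * M ^ N` of them, `M` being the number of elements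
of `K` of height at most `T`. -/
theorem result (N : ℕ) (A : Finset ℚ) (hA : ∀ μ ∈ A, 0 < μ ∧ μ ≤ 1 / 2) :
    (∀ (q : Fin (N + 1) × A) (a b : Fin 2), AnalyticOnNhd ℂ (fun x => pmH A x q a b) (UU N)) ∧
    (∀ (q : Fin (N + 1) × A), ∀ x ∈ UU N, ∀ a : Fin 2,
      HasDerivAt (fun z => PH ((q.2.1 : ℚ) : ℝ) z a 0) (pmH A x q a 1) (x q.1)) ∧
    (∀ μ ∈ A, ∀ z : ℝ, 0 < z → z < 1 →
      PH (μ : ℝ) z 0 0 = ((∫ x in Set.Ioo (0 : ℝ) 1, x ^ (-(μ : ℝ)) * (1 - x) ^ ((μ : ℝ) - 1) * (1 - z * x) ^ (-(μ : ℝ)) : ℝ) : ℂ) ∧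
      PH (μ : ℝ) z 1 0 =
        ((∫ x in Set.Iio (0 : ℝ), (-x) ^ (-(μ : ℝ)) * (1 - x) ^ ((μ : ℝ) - 1) * (1 - z * x) ^ (-(μ : ℝ)) : ℝ) : ℂ)) ∧
    (∀ x ∈ UU N, (pmH A x, 2 * (Real.pi : ℂ) * Complex.I) ∈ torH A x) ∧
    ∃ (ω : ℝ → ℕ) (T₀ : ℝ), Tendsto ω atTop atTop ∧ Monotone ω ∧ ∀ T, T₀ ≤ T → 0 < ω T ∧
      ∀ (K : Type) [Field K] [NumberField K], Module.finrank ℚ K ≤ ω T → ∀ (io : K →+* ℂ) (ξ : Fin (ω T) → ℂ),
        Y124.Cov ⌊T ^ ((ω T : ℝ)⁻¹)⌋₊ ⌊T ^ ((ω T : ℝ)⁻¹)⌋₊
          ((fun (e : Fin (N + 1) → K) j => io (e j)) '' ExcH A (ω T) K io ξ T) ∧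
        (ExcH A (ω T) K io ξ T : Set (Fin (N + 1) → K)).Finite ∧
        ((ExcH A (ω T) K io ξ T : Set (Fin (N + 1) → K)).ncard : ℝ) ≤
          T ^ ((ω T : ℝ)⁻¹) * ({x : K | Y120.HtLe K T x}.ncard : ℝ) ^ N := by
  refine ⟨fun q a b => ?_, fun q x hx a => ?_, fun μ hμ z h0 h1 => ⟨?_, ?_⟩, fun x hx => pmH_mem hA hx, ?_⟩
  · exact PF_an (m := fun μ : A => ((μ.1 : ℚ) : ℝ)) (fun μ => (lt_one (hA μ.1 μ.2)).1)
      (fun μ => (lt_one (hA μ.1 μ.2)).2) q a b
  · exact PH_deriv (hA q.2.1 q.2.2) (mem_UU.1 hx q.1) a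
  · exact W_real h1
  · exact W_real' h0
  · obtain ⟨ω, T₀, h1, h2, h3⟩ := (famH N A hA).main
    refine ⟨ω, T₀, h1, h2, fun T hT => ⟨(h3 T hT).1, ?_⟩⟩
    intro K _ _ hK io ξ
    have h4 := (h3 T hT).2 K hK io ξ
    rw [Fintype.card_fin, Nat.add_sub_cancel] at h4
    rw [ExcH_eq hA]
    exact h4

end Pool.Agent.Results.MP_5591bc_ag.RealMultiplication
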